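import Pool.Agent.Helper91.KZ.StT

/-!
# MP_1d885e_al, module CR1: the commutant of a twisted action
-/

namespace Pool.Agent.Helper48.KZ

open Pool.Agent.Helper91.KZ Polynomial TensorProduct

universe u

noncomputable section

section cr

variable {E N V : Type u} [Field E] [Field N] [Algebra E N] [AddCommGroup V] [Module N V]

theorem cr_symm (X : (N ≃ₐ[E] N) → (V ≃+ V))
    (hn : ∀ g (n : N) v, X g (n • v) = g n • X g v) (g : N ≃ₐ[E] N) (n : N) (v : V) :
    (X g).symm (n • v) = g.symm n • (X g).symm v := by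
  apply (X g).injective
  rw [hn]
  simp

/-- conjugation -/
def crc (X : (N ≃ₐ[E] N) → (V ≃+ V)) (hn : ∀ g (n : N) v, X g (n • v) = g n • X g v)
    (g : N ≃ₐ[E] N) : Module.End N V →+ Module.End N V where
  toFun f :=
    { toFun := fun v => X g (f ((X g).symm v))
      map_add' := by intro x y; simp
      map_smul' := by intro n v; simp [cr_symm X hn, hn] }
  map_zero' := by ext; simp
  map_add' := by intro f f'; ext; simp

theorem crc_apply (X : (N ≃ₐ[E] N) → (V ≃+ V)) (hn : ∀ g (n : N) v, X g (n • v) = g n • X g v)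
    (g : N ≃ₐ[E] N) (f : Module.End N V) (v : V) : crc X hn g f (X g v) = X g (f v) := by
  change X g (f ((X g).symm (X g v))) = _
  rw [AddEquiv.symm_apply_apply]

theorem crc_smul (X : (N ≃ₐ[E] N) → (V ≃+ V)) (hn : ∀ g (n : N) v, X g (n • v) = g n • X g v)
    (g : N ≃ₐ[E] N) (n : N) (f : Module.End N V) : crc X hn g (n • f) = g n • crc X hn g f := by
  ext v
  obtain ⟨w, rfl⟩ := (X g).surjective v
  rw [crc_apply, LinearMap.smul_apply, LinearMap.smul_apply, crc_apply, hn]

theorem crc_comp (X : (N ≃ₐ[E] N) → (V ≃+ V)) (a : (N ≃ₐ[E] N) → (N ≃ₐ[E] N) → N)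
    (hn : ∀ g (n : N) v, X g (n • v) = g n • X g v)
    (hc : ∀ g h v, X g (X h v) = a g h • X (g * h) v) (g h : N ≃ₐ[E] N) (f : Module.End N V) :
    crc X hn g (crc X hn h f) = crc X hn (g * h) f := by
  ext v
  obtain ⟨w, rfl⟩ := (X g).surjective v
  obtain ⟨w, rfl⟩ := (X h).surjective w
  rw [crc_apply, crc_apply, hc, hc, map_smul, crc_apply]

theorem cr_one (X : (N ≃ₐ[E] N) → (V ≃+ V)) (a : (N ≃ₐ[E] N) → (N ≃ₐ[E] N) → N)
    (hc : ∀ g h v, X g (X h v) = a g h • X (g * h) v) (v : V) : X 1 v = a 1 1 • v := by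
  obtain ⟨w, rfl⟩ := (X 1).surjective v
  rw [hc, one_mul]

theorem crc_one (X : (N ≃ₐ[E] N) → (V ≃+ V)) (a : (N ≃ₐ[E] N) → (N ≃ₐ[E] N) → N)
    (hn : ∀ g (n : N) v, X g (n • v) = g n • X g v)
    (hc : ∀ g h v, X g (X h v) = a g h • X (g * h) v) (f : Module.End N V) :
    crc X hn 1 f = f := by
  ext v
  obtain ⟨w, rfl⟩ := (X 1).surjective v
  rw [crc_apply, cr_one X a hc, cr_one X a hc, map_smul]

theorem crc_fix (X : (N ≃ₐ[E] N) → (V ≃+ V)) (hn : ∀ g (n : N) v, X g (n • v) = g n • X g v)
    (f : Module.End N V) :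
    (∀ g, crc X hn g f = f) ↔ ∀ g v, X g (f v) = f (X g v) := by
  constructor
  · intro h g v
    rw [← crc_apply X hn, h]
  · intro h g
    ext v
    obtain ⟨w, rfl⟩ := (X g).surjective v
    rw [crc_apply, h]

/-- rank one maps generate: one is in the two-sided ideal generated by `f ≠ 0` -/
theorem cr_end [FiniteDimensional N V] (f : Module.End N V) (hf : f ≠ 0) :
    ∃ (n : ℕ) (p q : Fin n → Module.End N V), ∑ i, p i * f * q i = 1 := by
  obtain ⟨v, hv⟩ : ∃ v, f v ≠ 0 := by
    by_contra hh
    push Not at hh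
    exact hf (LinearMap.ext hh)
  obtain ⟨μ, hμ⟩ : ∃ μ : V →ₗ[N] N, μ (f v) = 1 := by
    obtain ⟨g, -, hg⟩ := LinearMap.exists_extend_of_notMem (K := N) (V' := N)
      (p := (⊥ : Submodule N V)) 0 (v := f v) (by simpa using hv) 1
    exact ⟨g, hg⟩
  let b := Module.finBasis N V
  refine ⟨_, fun i => μ.smulRight (b i), fun i => (b.coord i).smulRight v, ?_⟩
  ext w
  rw [LinearMap.sum_apply]
  have : ∀ i, (μ.smulRight (b i) * f * (b.coord i).smulRight v) w = (b.repr w i) • b i := by
    intro i
    simp [hμ]
  rw [Finset.sum_congr rfl fun i _ => this i]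
  rw [b.sum_repr]
  rfl

/-- the centre of the endomorphism ring -/
theorem cr_cen [FiniteDimensional N V] (hV : 0 < Module.finrank N V) (f : Module.End N V)
    (hf : ∀ g : Module.End N V, f * g = g * f) : ∃ n : N, f = n • (1 : Module.End N V) := by
  have := Module.nontrivial_of_finrank_pos hV
  obtain ⟨v, hv⟩ := exists_ne (0 : V)
  obtain ⟨μ, hμ⟩ : ∃ μ : V →ₗ[N] N, μ v = 1 := by
    obtain ⟨g, -, hg⟩ := LinearMap.exists_extend_of_notMem (K := N) (V' := N)
      (p := (⊥ : Submodule N V)) 0 (v := v) (by simpa using hv) 1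
    exact ⟨g, hg⟩
  refine ⟨μ (f v), ?_⟩
  ext w
  have h := congrArg (fun k : Module.End N V => k v) (hf (μ.smulRight w))
  simp only [Module.End.mul_apply, LinearMap.smulRight_apply, hμ, one_smul] at h
  rw [h]
  rfl

end cr

section main

variable {E N V : Type u} [Field E] [Field N] [Algebra E N] [AddCommGroup V] [Module N V]
  [Module E V] [IsScalarTower E N V]

/-- the commutant -/
def crG (X : (N ≃ₐ[E] N) → (V ≃+ V)) (hn : ∀ g (n : N) v, X g (n • v) = g n • X g v) :
    Subalgebra E (Module.End N V) where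
  carrier := {f | ∀ g v, X g (f v) = f (X g v)}
  mul_mem' := by
    intro f f' hf hf' g v
    rw [Module.End.mul_apply, Module.End.mul_apply, hf, hf']
  add_mem' := by
    intro f f' hf hf' g v
    rw [LinearMap.add_apply, LinearMap.add_apply, map_add, hf, hf']
  algebraMap_mem' := by
    intro e g v
    have : ∀ w : V, algebraMap E (Module.End N V) e w = algebraMap E N e • w := by
      intro w
      rw [Module.algebraMap_end_apply, algebraMap_smul]
    rw [this, this, hn, AlgEquiv.commutes]

theorem crG_mem (X : (N ≃ₐ[E] N) → (V ≃+ V)) (hn : ∀ g (n : N) v, X g (n • v) = g n • X g v)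
    (f : Module.End N V) : f ∈ crG X hn ↔ ∀ g v, X g (f v) = f (X g v) := Iff.rfl

theorem crG_alg (X : (N ≃ₐ[E] N) → (V ≃+ V)) (hn : ∀ g (n : N) v, X g (n • v) = g n • X g v)
    (e : E) : ((algebraMap E (crG X hn) e : crG X hn) : Module.End N V) =
      algebraMap E N e • (1 : Module.End N V) := by
  ext w
  change algebraMap E (Module.End N V) e w = _
  rw [Module.algebraMap_end_apply, LinearMap.smul_apply, Module.End.one_apply, algebraMap_smul]

theorem crG_esmul (f : Module.End N V) (e : E) : e • f = algebraMap E N e • f := by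
  ext w
  rw [LinearMap.smul_apply, LinearMap.smul_apply, algebraMap_smul]

end main

section fin

variable {E N V : Type u} [Field E] [Field N] [Algebra E N] [AddCommGroup V] [Module N V]
  [Module E V] [IsScalarTower E N V]

/-- the evaluation -/
def crPhi (G : Subalgebra E (Module.End N V)) : N ⊗[E] G →ₐ[N] Module.End N V :=
  Algebra.TensorProduct.lift (Algebra.ofId N (Module.End N V)) G.val (fun n g => by
    rw [Algebra.ofId_apply]
    exact Algebra.commutes n (G.val g))

theorem crPhi_tmul (G : Subalgebra E (Module.End N V)) (n : N) (g : G) :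
    crPhi G (n ⊗ₜ g) = n • (g : Module.End N V) := by
  rw [crPhi, Algebra.TensorProduct.lift_tmul, Algebra.ofId_apply, Algebra.smul_def]
  rfl

/-- linear independence of families in the commutant -/
theorem cr_lin (G : Subalgebra E (Module.End N V))
    (H : ∀ (ι : Type) [Fintype ι] (w : ι → Module.End N V), (∀ i, w i ∈ G) →
      (∀ c : ι → E, ∑ i, algebraMap E N (c i) • w i = 0 → c = 0) → LinearIndependent N w)
    {κ : Type u} (w : κ → G) (hw : LinearIndependent E w) :
    LinearIndependent N (fun k => (w k : Module.End N V)) := by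
  rw [linearIndependent_iff_finset_linearIndependent]
  intro s
  have hs := linearIndependent_iff_finset_linearIndependent.1 hw s
  let e : Fin s.card ≃ s := s.equivFin.symm
  rw [← linearIndependent_equiv e]
  refine H (Fin s.card) _ (fun i => (w (e i)).2) ?_
  intro c hc
  have h1 : ∑ i, c i • w (e i) = 0 := by
    apply Subtype.ext
    rw [AddSubmonoidClass.coe_finsetSum, ZeroMemClass.coe_zero, ← hc]
    refine Finset.sum_congr rfl fun i _ => ?_
    change c i • (w (e i) : Module.End N V) = _
    rw [crG_esmul]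
    rfl
  have h2 : LinearIndependent E (fun i => w (e i)) := by
    have := (linearIndependent_equiv e).2 hs
    exact this
  exact funext fun i => Fintype.linearIndependent_iff.1 h2 c h1 i

theorem crPhi_inj (G : Subalgebra E (Module.End N V))
    (H : ∀ (ι : Type) [Fintype ι] (w : ι → Module.End N V), (∀ i, w i ∈ G) →
      (∀ c : ι → E, ∑ i, algebraMap E N (c i) • w i = 0 → c = 0) → LinearIndependent N w) :
    Function.Injective (crPhi G) := by
  rw [injective_iff_map_eq_zero]
  intro x hx
  let b := Module.Basis.ofVectorSpace E G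
  let B := Algebra.TensorProduct.basis N b
  have hl : LinearIndependent N (fun k => crPhi G (B k)) := by
    have := cr_lin G H b b.linearIndependent
    have he : (fun k => crPhi G (B k)) = fun k => (b k : Module.End N V) := by
      funext k
      rw [Algebra.TensorProduct.basis_apply, crPhi_tmul, one_smul]
    rw [he]
    exact this
  have h1 : Finsupp.linearCombination N (fun k => crPhi G (B k)) (B.repr x) = 0 := by
    rw [← hx]
    conv_rhs => rw [← B.linearCombination_repr x]
    rw [Finsupp.linearCombination_apply, Finsupp.linearCombination_apply, Finsupp.sum,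
      Finsupp.sum, map_sum]
    refine Finset.sum_congr rfl fun i _ => ?_
    rw [map_smul]
  have h2 := linearIndependent_iff.1 hl _ h1
  exact (LinearEquiv.map_eq_zero_iff B.repr).1 h2

theorem crPhi_surj (G : Subalgebra E (Module.End N V))
    (H : ∀ f : Module.End N V, f ∈ Submodule.span N (G : Set (Module.End N V))) :
    Function.Surjective (crPhi G) := by
  intro f
  have : f ∈ LinearMap.range (crPhi G).toLinearMap := by
    refine Submodule.span_le.2 ?_ (H f)
    intro g hg
    refine ⟨1 ⊗ₜ ⟨g, hg⟩, ?_⟩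
    change crPhi G (1 ⊗ₜ ⟨g, hg⟩) = g
    rw [crPhi_tmul, one_smul]
  obtain ⟨x, hx⟩ := this
  exact ⟨x, hx⟩

theorem cr_fin [FiniteDimensional N V] (G : Subalgebra E (Module.End N V))
    (hb : Function.Bijective (crPhi G)) : FiniteDimensional E G := by
  let b := Module.Basis.ofVectorSpace E G
  let B := Algebra.TensorProduct.basis N b
  let e : N ⊗[E] G ≃ₗ[N] Module.End N V := LinearEquiv.ofBijective (crPhi G).toLinearMap hb
  have := Module.Finite.finite_basis (B.map e)
  exact Module.Finite.of_basis b

/-- the commutant is simple -/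
theorem cr_sim [FiniteDimensional N V] (hV : 0 < Module.finrank N V)
    (G : Subalgebra E (Module.End N V)) (hb : Function.Bijective (crPhi G))
    (H : ∀ f : Module.End N V, f ∈ Submodule.span N (G : Set (Module.End N V))) :
    IsSimpleRing G := by
  have hnt := Module.nontrivial_of_finrank_pos hV
  have hG : Nontrivial G := by
    refine ⟨0, 1, fun h => ?_⟩
    have := congrArg (fun g : G => (g : Module.End N V)) h
    exact zero_ne_one this
  refine IsSimpleRing.of_eq_bot_or_eq_top fun I => ?_
  rw [or_iff_not_imp_left, ← I.one_mem_iff]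
  intro hI
  obtain ⟨γ, hγ, hγ0 : γ ≠ 0⟩ := SetLike.exists_of_lt (bot_lt_iff_ne_bot.mpr hI : ⊥ < I)
  -- the span of the ideal in the tensor product
  let J : Set G := {g | g ∈ I}
  let W : Submodule N (Module.End N V) := Submodule.span N ((fun g : G => (g : Module.End N V)) '' J)
  have hleft : ∀ p : Module.End N V, ∀ f ∈ W, p * f ∈ W := by
    intro p f hf
    have hp := H p
    induction hp using Submodule.span_induction with
    | mem p hp =>
      induction hf using Submodule.span_induction with
      | mem f hf =>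
        obtain ⟨g, hg, rfl⟩ := hf
        exact Submodule.subset_span ⟨⟨p, hp⟩ * g, I.mul_mem_left _ _ hg, rfl⟩
      | zero => rw [mul_zero]; exact W.zero_mem
      | add x y _ _ hx hy => rw [mul_add]; exact W.add_mem hx hy
      | smul n x _ hx => rw [mul_smul_comm]; exact W.smul_mem _ hx
    | zero => rw [zero_mul]; exact W.zero_mem
    | add x y _ _ hx hy => rw [add_mul]; exact W.add_mem hx hy
    | smul n x _ hx => rw [smul_mul_assoc]; exact W.smul_mem _ hx
  have hright : ∀ p : Module.End N V, ∀ f ∈ W, f * p ∈ W := by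
    intro p f hf
    have hp := H p
    induction hp using Submodule.span_induction with
    | mem p hp =>
      induction hf using Submodule.span_induction with
      | mem f hf =>
        obtain ⟨g, hg, rfl⟩ := hf
        exact Submodule.subset_span ⟨g * ⟨p, hp⟩, I.mul_mem_right _ _ hg, rfl⟩
      | zero => rw [zero_mul]; exact W.zero_mem
      | add x y _ _ hx hy => rw [add_mul]; exact W.add_mem hx hy
      | smul n x _ hx => rw [smul_mul_assoc]; exact W.smul_mem _ hx
    | zero => rw [mul_zero]; exact W.zero_mem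
    | add x y _ _ hx hy => rw [mul_add]; exact W.add_mem hx hy
    | smul n x _ hx => rw [mul_smul_comm]; exact W.smul_mem _ hx
  have hγW : (γ : Module.End N V) ∈ W := Submodule.subset_span ⟨γ, hγ, rfl⟩
  obtain ⟨n, p, q, hpq⟩ := cr_end (γ : Module.End N V) (fun h => hγ0 (Subtype.ext h))
  have h1 : (1 : Module.End N V) ∈ W := by
    rw [← hpq]
    exact Submodule.sum_mem _ fun i _ => hright _ _ (hleft _ _ hγW)
  by_contra hone
  -- a functional vanishing on the ideal
  let JS : Submodule E G :=
    { carrier := J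
      add_mem' := fun ha hb => I.add_mem ha hb
      zero_mem' := I.zero_mem
      smul_mem' := by
        intro e g hg
        rw [Algebra.smul_def]
        exact I.mul_mem_left _ _ hg }
  obtain ⟨l, hl1, hlJ⟩ := Submodule.exists_le_ker_of_notMem (p := JS) (v := (1 : G)) hone
  let L : N ⊗[E] G →ₗ[N] N := (Algebra.TensorProduct.rid E N N).toLinearMap ∘ₗ
    (LinearMap.baseChange N l)
  have hL : ∀ (n : N) (g : G), L (n ⊗ₜ g) = l g • n := by
    intro n g
    change Algebra.TensorProduct.rid E N N (LinearMap.baseChange N l (n ⊗ₜ g)) = _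
    rw [LinearMap.baseChange_tmul, Algebra.TensorProduct.rid_tmul]
  have hW : ∀ f ∈ W, ∃ x : N ⊗[E] G, crPhi G x = f ∧ L x = 0 := by
    intro f hf
    induction hf using Submodule.span_induction with
    | mem f hf =>
      obtain ⟨g, hg, rfl⟩ := hf
      refine ⟨1 ⊗ₜ g, by rw [crPhi_tmul, one_smul], ?_⟩
      rw [hL, LinearMap.mem_ker.1 (hlJ hg), zero_smul]
    | zero => exact ⟨0, map_zero _, map_zero _⟩
    | add x y _ _ hx hy =>
      obtain ⟨x', hx1, hx2⟩ := hx
      obtain ⟨y', hy1, hy2⟩ := hy
      exact ⟨x' + y', by rw [map_add, hx1, hy1], by rw [map_add, hx2, hy2, add_zero]⟩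
    | smul n x _ hx =>
      obtain ⟨x', hx1, hx2⟩ := hx
      exact ⟨n • x', by rw [map_smul, hx1], by rw [map_smul, hx2, smul_zero]⟩
  obtain ⟨x, hx1, hx2⟩ := hW 1 h1
  have hx : x = 1 ⊗ₜ 1 := by
    apply hb.1
    rw [hx1, crPhi_tmul, one_smul]
    rfl
  rw [hx, hL] at hx2
  rcases smul_eq_zero.1 hx2 with h | h
  · exact hl1 h
  · exact one_ne_zero h

end fin

theorem cr_main (h : ST_GDS.{u}) {E N V : Type u} [Field E] [Field N] [Algebra E N]
    [FiniteDimensional E N] [IsGalois E N] [AddCommGroup V] [Module N V] [FiniteDimensional N V]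
    [Module E V] [IsScalarTower E N V]
    (X : (N ≃ₐ[E] N) → (V ≃+ V)) (a : (N ≃ₐ[E] N) → (N ≃ₐ[E] N) → N)
    (hn : ∀ g (n : N) v, X g (n • v) = g n • X g v)
    (hc : ∀ g h v, X g (X h v) = a g h • X (g * h) v) (hV : 0 < Module.finrank N V) :
    ∃ (Γ : Type u) (_ : Ring Γ) (_ : Algebra E Γ)
    (i : Γ →+* Module.End N V), Function.Injective i ∧
    (∀ e : E, i (algebraMap E Γ e) = algebraMap E N e • 1) ∧
    (∀ γ g v, X g (i γ v) = i γ (X g v)) ∧
    (∀ f : Module.End N V, f ∈ Submodule.span N (Set.range i)) ∧ CS E Γ ∧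
    MI N (N ⊗[E] Γ) N (Module.finrank N V) := by
  obtain ⟨hs, hi⟩ := h E N (Module.End N V) (crc X hn) (fun g n f => crc_smul X hn g n f)
    (fun g h f => crc_comp X a hn hc g h f) (fun f => crc_one X a hn hc f)
  let G := crG X hn
  have hspan : ∀ f : Module.End N V, f ∈ Submodule.span N (G : Set (Module.End N V)) := by
    intro f
    have := hs f
    refine Submodule.span_mono ?_ this
    intro w hw
    exact (crc_fix X hn w).1 hw
  have hlin : ∀ (ι : Type) [Fintype ι] (w : ι → Module.End N V), (∀ i, w i ∈ G) →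
      (∀ c : ι → E, ∑ i, algebraMap E N (c i) • w i = 0 → c = 0) → LinearIndependent N w := by
    intro ι _ w hw hc'
    exact hi ι w (fun i g => (crc_fix X hn (w i)).2 (hw i) g) hc'
  have hb : Function.Bijective (crPhi G) := ⟨crPhi_inj G hlin, crPhi_surj G hspan⟩
  have hnt := Module.nontrivial_of_finrank_pos hV
  refine ⟨G, inferInstance, inferInstance, G.val.toRingHom, Subtype.val_injective, ?_, ?_, ?_,
    ⟨cr_sim hV G hb hspan, cr_fin G hb, ?_⟩, hV, ?_⟩
  · intro e
    exact crG_alg X hn e
  · intro γ g v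
    exact γ.2 g v
  · intro f
    have := hspan f
    refine Submodule.span_mono ?_ this
    intro w hw
    exact ⟨⟨w, hw⟩, rfl⟩
  · intro x hx
    have hcom : ∀ g : Module.End N V, (x : Module.End N V) * g = g * x := by
      intro g
      have hg := hspan g
      induction hg using Submodule.span_induction with
      | mem g hg => exact congrArg (fun z : G => (z : Module.End N V)) (hx ⟨g, hg⟩)
      | zero => rw [mul_zero, zero_mul]
      | add p q _ _ hp hq => rw [mul_add, add_mul, hp, hq]
      | smul n p _ hp => rw [mul_smul_comm, smul_mul_assoc, hp]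
    obtain ⟨n, hxn⟩ := cr_cen hV (x : Module.End N V) hcom
    have hfix : ∀ g : N ≃ₐ[E] N, g n = n := by
      intro g
      obtain ⟨v, hv⟩ := exists_ne (0 : V)
      have h1 := x.2 g v
      rw [hxn] at h1
      simp only [LinearMap.smul_apply, Module.End.one_apply] at h1
      rw [hn] at h1
      have h2 : X g v ≠ 0 := by
        intro h0
        exact hv ((X g).injective (by rw [h0, map_zero]))
      have h3 : (g n - n) • X g v = 0 := by rw [sub_smul, h1, sub_self]
      rcases smul_eq_zero.1 h3 with h | h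
      · exact sub_eq_zero.1 h
      · exact absurd h h2
    obtain ⟨e, he⟩ := (IsGalois.mem_range_algebraMap_iff_fixed n).2 hfix
    refine ⟨e, ?_⟩
    apply Subtype.ext
    rw [hxn, ← he]
    exact crG_alg X hn e
  · exact ⟨(AlgEquiv.ofBijective (crPhi G) hb).trans
      (LinearMap.toMatrixAlgEquiv (Module.finBasis N V))⟩

theorem CR1 (h : ST_GDS.{u}) : ST_CR1.{u} := by
  intro E N V _ _ _ _ _ _ _ _ X a _ hn hc hV
  let _ : Module E V := Module.compHom V (algebraMap E N)
  have : IsScalarTower E N V := ⟨fun e n v => by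
    rw [Algebra.smul_def, mul_smul]
    rfl⟩
  exact cr_main h X a hn hc hV

end

end Pool.Agent.Helper48.KZ
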